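import Pool.Agent.H11.ZDE.Loc2

/-!
# Project ZDE (MP_92a1a0_co), module D: `F1Stmt` and `DStmt`
-/

set_option linter.unusedSimpArgs false
set_option linter.unusedVariables false

namespace Pool.Agent.H11.ZDE

open RootLat

variable {L : Type*} [AddCommGroup L] {R : RootLat L}

namespace Sys

variable (S : Sys R) {x w : Module.End ℤ L} {a b b' c g i z e f q : L}

/-! ### F1 -/

theorem d_f1 : F1Stmt S := by
  intro x b c e hx hb hc hq hp h
  obtain ⟨q, rfl⟩ : ∃ q, b = c + q := ⟨b - c, by abel⟩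
  simp only [add_sub_cancel_left] at *
  have hcq : R.Q c q = -1 := by
    have := hb.fb.q
    simp only [Q_add, Q_addr, hc.q, hq, R.Q_comm q c] at this
    linarith
  have e1 : Ch2 R c q := Ch2.mk' hc.q hq hcq hc.p hp
  rcases R.Q_cases hq h.fc.q with h2 | h2 | h2 | h2 | h2
  · exfalso
    have := R.eq_neg_of hq h.fc.q h2
    subst this
    exact R.P_neg h.fc.p hp
  · exfalso
    exact R.no_triangle hc.q hq h.fc.q hc.p hp h.fc.p hcq h2 h.q
  · exfalso
    have ech : Ch R q c e := Ch.mk' hq hc.q h.fc.q (by rw [R.Q_comm]; exact hcq) h.q h2 hp hc.p h.fc.p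
    have v0 := hb.s e h.fc (by (simp only [RootLat.Q_sub, RootLat.Q_smul, RootLat.Q_subr, RootLat.Q_smulr, RootLat.Q_add, RootLat.Q_addr, RootLat.Q_neg, RootLat.Q_negr, Ch.aa ech, Ch.bb ech, Ch.cc ech, Ch.ab ech, Ch.ba ech, Ch.bc ech, Ch.cb ech, Ch.ac ech, Ch.ca ech]; try norm_num))
    rcases S.sgn (S.AV x hx) hq with hs | hs
    · have v1 : S.V (x * R.r e * R.r (c + q) * R.r q) :=
        S.dn v0 (b := q) hq hp (R.P_add hc.xp h.fc.xp) (by (simp only [Module.End.mul_apply, Module.End.one_apply, RootLat.r_apply, RootLat.Q_sub, RootLat.Q_smul, RootLat.Q_subr, RootLat.Q_smulr, RootLat.Q_add, RootLat.Q_addr, RootLat.Q_neg, RootLat.Q_negr, Ch.aa ech, Ch.bb ech, Ch.cc ech, Ch.ab ech, Ch.ba ech, Ch.bc ech, Ch.cb ech, Ch.ac ech, Ch.ca ech, map_add, map_sub, map_neg, map_zsmul]; try module)) rfl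
      exact h.nv (S.dn v1 (b := c + q) hb.fb.q hb.fb.p hs (by (simp only [Module.End.mul_apply, Module.End.one_apply, RootLat.r_apply, RootLat.Q_sub, RootLat.Q_smul, RootLat.Q_subr, RootLat.Q_smulr, RootLat.Q_add, RootLat.Q_addr, RootLat.Q_neg, RootLat.Q_negr, Ch.aa ech, Ch.bb ech, Ch.cc ech, Ch.ab ech, Ch.ba ech, Ch.bc ech, Ch.cb ech, Ch.ac ech, Ch.ca ech, map_add, map_sub, map_neg, map_zsmul]; try module)) (by (refine LinearMap.ext fun v => ?_; simp only [Module.End.mul_apply, Module.End.one_apply, RootLat.r_apply, RootLat.Q_sub, RootLat.Q_smul, RootLat.Q_subr, RootLat.Q_smulr, RootLat.Q_add, RootLat.Q_addr, RootLat.Q_neg, RootLat.Q_negr, Ch.aa ech, Ch.bb ech, Ch.cc ech, Ch.ab ech, Ch.ba ech, Ch.bc ech, Ch.cb ech, Ch.ac ech, Ch.ca ech, map_add, map_sub, map_neg, map_zsmul]; try module)))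
    · exact S.H1 hx h ⟨hq, hp, hs⟩ hb.fb h2 v0
  · -- `(q,e) = 1`
    have hqe : R.Q (q - e) (q - e) = 2 := by
      simp only [Q_sub, Q_subr, hq, h.fc.q, R.Q_comm e q, h2]; norm_num
    rcases R.P_root _ hqe with hp2 | hp2
    · exact Or.inr ⟨h2, hp2⟩
    · exfalso
      obtain ⟨g, rfl⟩ : ∃ g, e = q + g := ⟨e - q, by abel⟩
      have hg1 : -(q - (q + g)) = g := by abel
      have hg2 : q - (q + g) = -g := by abel
      rw [hg1] at hp2
      simp only [hg2, Q_neg, Q_negr, neg_neg] at hqe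
      have hqg : R.Q q g = -1 := by
        simp only [Q_addr, hq] at h2
        linarith
      have hcg : R.Q c g = 0 := by
        have := h.q
        simp only [Q_addr, hcq] at this
        linarith
      have ech : Ch R c q g := Ch.mk' hc.q hq hqe hcq hqg hcg hc.p hp hp2
      have e2 : Ch2 R q g := Ch2.mk' hq hqe hqg hp hp2
      rcases S.sgn (S.AV x hx) hq with hs | hs
      · have hqF : S.F x q := S.low' e1 hc.xp hs hb.fb
        rcases S.sgn (S.AV x hx) hqe with hs2 | hs2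
        · have hgF : S.F x g := S.low' e2 hs hs2 h.fc
          have v0 := hb.s g hgF (by (simp only [RootLat.Q_sub, RootLat.Q_smul, RootLat.Q_subr, RootLat.Q_smulr, RootLat.Q_add, RootLat.Q_addr, RootLat.Q_neg, RootLat.Q_negr, Ch.aa ech, Ch.bb ech, Ch.cc ech, Ch.ab ech, Ch.ba ech, Ch.bc ech, Ch.cb ech, Ch.ac ech, Ch.ca ech]; try norm_num))
          have v1 : S.V (x * R.r g * R.r q * R.r c) :=
            S.dn v0 (b := q) hq hp hc.xp (by (simp only [Module.End.mul_apply, Module.End.one_apply, RootLat.r_apply, RootLat.Q_sub, RootLat.Q_smul, RootLat.Q_subr, RootLat.Q_smulr, RootLat.Q_add, RootLat.Q_addr, RootLat.Q_neg, RootLat.Q_negr, Ch.aa ech, Ch.bb ech, Ch.cc ech, Ch.ab ech, Ch.ba ech, Ch.bc ech, Ch.cb ech, Ch.ac ech, Ch.ca ech, map_add, map_sub, map_neg, map_zsmul]; try module)) (by (refine LinearMap.ext fun v => ?_; simp only [Module.End.mul_apply, Module.End.one_apply, RootLat.r_apply, RootLat.Q_sub, RootLat.Q_smul, RootLat.Q_subr,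 RootLat.Q_smulr, RootLat.Q_add, RootLat.Q_addr, RootLat.Q_neg, RootLat.Q_negr, Ch.aa ech, Ch.bb ech, Ch.cc ech, Ch.ab ech, Ch.ba ech, Ch.bc ech, Ch.cb ech, Ch.ac ech, Ch.ca ech, map_add, map_sub, map_neg, map_zsmul]; try module))
          have f0 : S.F (x * R.r g) q := S.T2 hgF hqF (by rw [R.Q_comm]; exact hqg) (S.Vcb e2 hs h.fc)
          have hz := S.act (S.act hx hgF) f0
          have f1 : S.F (x * R.r g * R.r q) c := S.mkF hc.q hc.p (R.P_add hc.xp h.fc.xp) (by (simp only [Module.End.mul_apply, Module.End.one_apply, RootLat.r_apply, RootLat.Q_sub, RootLat.Q_smul, RootLat.Q_subr, RootLat.Q_smulr, RootLat.Q_add, RootLat.Q_addr, RootLat.Q_neg, RootLat.Q_negr, Ch.aa ech, Ch.bb ech, Ch.cc ech, Ch.ab ech, Ch.ba ech, Ch.bc ech, Ch.cb ech, Ch.ac ech, Ch.ca ech, map_add, map_sub, map_neg, map_zsmul]; try module)) v1 rfl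
          have f2 : S.F (x * R.r g * R.r q) g := S.mkF hqe hp2 hs (by (simp only [Module.End.mul_apply, Module.End.one_apply, RootLat.r_apply, RootLat.Q_sub, RootLat.Q_smul, RootLat.Q_subr, RootLat.Q_smulr, RootLat.Q_add, RootLat.Q_addr, RootLat.Q_neg, RootLat.Q_negr, Ch.aa ech, Ch.bb ech, Ch.cc ech, Ch.ab ech, Ch.ba ech, Ch.bc ech, Ch.cb ech, Ch.ac ech, Ch.ca ech, map_add, map_sub, map_neg, map_zsmul]; try module)) h.fc.v (by (refine LinearMap.ext fun v => ?_; simp only [Module.End.mul_apply, Module.End.one_apply, RootLat.r_apply, RootLat.Q_sub, RootLat.Q_smul, RootLat.Q_subr, RootLat.Q_smulr, RootLat.Q_add, RootLat.Q_addr, RootLat.Q_neg, RootLat.Q_negr, Ch.aa ech, Ch.bb ech, Ch.cc ech, Ch.ab ech, Ch.ba ech, Ch.bc ech, Ch.cb ech, Ch.ac ech, Ch.ca ech, map_add, map_sub, map_neg, map_zsmul]; try module))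
          exact h.nv (S.O hz f2 f1 ech.ca (by (refine LinearMap.ext fun v => ?_; simp only [Module.End.mul_apply, Module.End.one_apply, RootLat.r_apply, RootLat.Q_sub, RootLat.Q_smul, RootLat.Q_subr, RootLat.Q_smulr, RootLat.Q_add, RootLat.Q_addr, RootLat.Q_neg, RootLat.Q_negr, Ch.aa ech, Ch.bb ech, Ch.cc ech, Ch.ab ech, Ch.ba ech, Ch.bc ech, Ch.cb ech, Ch.ac ech, Ch.ca ech, map_add, map_sub, map_neg, map_zsmul]; try module)))
        · exact S.H2 hx h hqF ⟨hqe, hp2, hs2⟩ ech.ca (S.Vcb e1 hc.xp hb.fb)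
      · have hs2 : R.P (x g) := R.P_cast (R.P_add h.fc.xp hs) (by rw [map_add]; abel)
        have v1 : S.V (x * R.r c * R.r (q + g) * R.r g) :=
          S.dn h.v (b := g) hqe hp2 hb.fb.xp (by (simp only [Module.End.mul_apply, Module.End.one_apply, RootLat.r_apply, RootLat.Q_sub, RootLat.Q_smul, RootLat.Q_subr, RootLat.Q_smulr, RootLat.Q_add, RootLat.Q_addr, RootLat.Q_neg, RootLat.Q_negr, Ch.aa ech, Ch.bb ech, Ch.cc ech, Ch.ab ech, Ch.ba ech, Ch.bc ech, Ch.cb ech, Ch.ac ech, Ch.ca ech, map_add, map_sub, map_neg, map_zsmul]; try module)) rfl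
        have v2 : S.V (x * R.r c * R.r (q + g) * R.r g * R.r (c + q)) :=
          S.dn v1 (b := c + q) hb.fb.q hb.fb.p hc.xp (by (simp only [Module.End.mul_apply, Module.End.one_apply, RootLat.r_apply, RootLat.Q_sub, RootLat.Q_smul, RootLat.Q_subr, RootLat.Q_smulr, RootLat.Q_add, RootLat.Q_addr, RootLat.Q_neg, RootLat.Q_negr, Ch.aa ech, Ch.bb ech, Ch.cc ech, Ch.ab ech, Ch.ba ech, Ch.bc ech, Ch.cb ech, Ch.ac ech, Ch.ca ech, map_add, map_sub, map_neg, map_zsmul]; try module)) rfl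
        have v3 : S.V (x * R.r g) :=
          S.dn v2 (b := q) hq hp h.fc.xp (by (simp only [Module.End.mul_apply, Module.End.one_apply, RootLat.r_apply, RootLat.Q_sub, RootLat.Q_smul, RootLat.Q_subr, RootLat.Q_smulr, RootLat.Q_add, RootLat.Q_addr, RootLat.Q_neg, RootLat.Q_negr, Ch.aa ech, Ch.bb ech, Ch.cc ech, Ch.ab ech, Ch.ba ech, Ch.bc ech, Ch.cb ech, Ch.ac ech, Ch.ca ech, map_add, map_sub, map_neg, map_zsmul]; try module)) (by (refine LinearMap.ext fun v => ?_; simp only [Module.End.mul_apply, Module.End.one_apply, RootLat.r_apply, RootLat.Q_sub, RootLat.Q_smul, RootLat.Q_subr, RootLat.Q_smulr, RootLat.Q_add, RootLat.Q_addr, RootLat.Q_neg, RootLat.Q_negr, Ch.aa ech, Ch.bb ech, Ch.cc ech, Ch.ab ech, Ch.ba ech, Ch.bc ech, Ch.cb ech, Ch.ac ech, Ch.ca ech, map_add, map_sub, map_neg, map_zsmul]; try module))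
        have hgF : S.F x g := ⟨hqe, hp2, hs2, v3⟩
        have v4 := hb.s g hgF (by (simp only [RootLat.Q_sub, RootLat.Q_smul, RootLat.Q_subr, RootLat.Q_smulr, RootLat.Q_add, RootLat.Q_addr, RootLat.Q_neg, RootLat.Q_negr, Ch.aa ech, Ch.bb ech, Ch.cc ech, Ch.ab ech, Ch.ba ech, Ch.bc ech, Ch.cb ech, Ch.ac ech, Ch.ca ech]; try norm_num))
        have v5 : S.V (x * R.r g * R.r (c + q) * R.r (q + g)) :=
          S.dn v4 (b := q + g) h.fc.q h.fc.p hs (by (simp only [Module.End.mul_apply, Module.End.one_apply, RootLat.r_apply, RootLat.Q_sub, RootLat.Q_smul, RootLat.Q_subr, RootLat.Q_smulr, RootLat.Q_add, RootLat.Q_addr, RootLat.Q_neg, RootLat.Q_negr, Ch.aa ech, Ch.bb ech, Ch.cc ech, Ch.ab ech, Ch.ba ech, Ch.bc ech, Ch.cb ech, Ch.ac ech, Ch.ca ech, map_add, map_sub, map_neg, map_zsmul]; try module)) rfl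
        exact h.nv (S.dn v5 (b := q) hq hp hb.fb.xp (by (simp only [Module.End.mul_apply, Module.End.one_apply, RootLat.r_apply, RootLat.Q_sub, RootLat.Q_smul, RootLat.Q_subr, RootLat.Q_smulr, RootLat.Q_add, RootLat.Q_addr, RootLat.Q_neg, RootLat.Q_negr, Ch.aa ech, Ch.bb ech, Ch.cc ech, Ch.ab ech, Ch.ba ech, Ch.bc ech, Ch.cb ech, Ch.ac ech, Ch.ca ech, map_add, map_sub, map_neg, map_zsmul]; try module)) (by (refine LinearMap.ext fun v => ?_; simp only [Module.End.mul_apply, Module.End.one_apply, RootLat.r_apply, RootLat.Q_sub, RootLat.Q_smul, RootLat.Q_subr, RootLat.Q_smulr, RootLat.Q_add, RootLat.Q_addr, RootLat.Q_neg, RootLat.Q_negr, Ch.aa ech, Ch.bb ech, Ch.cc ech, Ch.ab ech, Ch.ba ech, Ch.bc ech, Ch.cb ech, Ch.ac ech, Ch.ca ech, map_add, map_sub, map_neg, map_zsmul]; try module)))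
  · exact Or.inl (R.eq_of_two hq h.fc.q h2).symm

/-- HH -/
theorem d_HH (hx : S.A x) (h : S.Arr x f (q + g)) (hq : S.F x q) (hg : S.F x g) (hfq : R.Q f q = -1)
    (hv : S.V (x * R.r q * R.r f)) (h0 : R.Q f g = 0) : S.Arr (x * R.r q) f (q + g) := by
  have hqg : R.Q q g = -1 := by
    have := h.fc.q
    simp only [Q_add, Q_addr, hq.q, hg.q, R.Q_comm g q] at this
    linarith
  have e : Ch R f q g := Ch.mk' h.fb.q hq.q hg.q hfq hqg h0 h.fb.p hq.p hg.p
  have e2 : Ch2 R q g := S.ch2 hq hg hqg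
  have hy := S.act hx hq
  have hb : S.F (x * R.r q) f := S.T2 hq h.fb e.ba hv
  have hb' : S.F (x * R.r q) (q + g) := S.T10 e2 hq.xp hg.xp h.fc
  have hnv : ¬ S.V (x * R.r q * R.r (q + g) * R.r f) := by
    intro hV
    apply h.nv
    have f0 : S.F (x * R.r g) q := S.T2 hg hq e.cb (S.Vcb e2 hq.xp h.fc)
    have hz := S.act (S.act hx hg) f0
    have f1 : S.F (x * R.r g * R.r q) f :=
      S.mkF h.fb.q h.fb.p (R.P_add h.fb.xp h.fc.xp) (by (simp only [Module.End.mul_apply, Module.End.one_apply, RootLat.r_apply, RootLat.Q_sub, RootLat.Q_smul, RootLat.Q_subr, RootLat.Q_smulr, RootLat.Q_add, RootLat.Q_addr, RootLat.Q_neg, RootLat.Q_negr, Ch.aa e, Ch.bb e, Ch.cc e, Ch.ab e, Ch.ba e, Ch.bc e, Ch.cb e, Ch.ac e, Ch.ca e, map_add, map_sub, map_neg, map_zsmul]; try module)) hV (by (refine LinearMap.ext fun v => ?_; simp only [Module.End.mul_apply, Module.End.one_apply, RootLat.r_apply, RootLat.Q_sub, RootLat.Q_smul, RootLat.Q_subr, RootLat.Q_smulr,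 RootLat.Q_add, RootLat.Q_addr, RootLat.Q_neg, RootLat.Q_negr, Ch.aa e, Ch.bb e, Ch.cc e, Ch.ab e, Ch.ba e, Ch.bc e, Ch.cb e, Ch.ac e, Ch.ca e, map_add, map_sub, map_neg, map_zsmul]; try module))
    have f2 : S.F (x * R.r g * R.r q) g := S.mkF hg.q hg.p hq.xp (by (simp only [Module.End.mul_apply, Module.End.one_apply, RootLat.r_apply, RootLat.Q_sub, RootLat.Q_smul, RootLat.Q_subr, RootLat.Q_smulr, RootLat.Q_add, RootLat.Q_addr, RootLat.Q_neg, RootLat.Q_negr, Ch.aa e, Ch.bb e, Ch.cc e, Ch.ab e, Ch.ba e, Ch.bc e, Ch.cb e, Ch.ac e, Ch.ca e, map_add, map_sub, map_neg, map_zsmul]; try module)) h.fc.v (by (refine LinearMap.ext fun v => ?_; simp only [Module.End.mul_apply, Module.End.one_apply, RootLat.r_apply, RootLat.Q_sub, RootLat.Q_smul, RootLat.Q_subr, RootLat.Q_smulr, RootLat.Q_add, RootLat.Q_addr, RootLat.Q_neg, RootLat.Q_negr, Ch.aa e, Ch.bb e, Ch.cc e, Ch.ab e, Ch.ba e, Ch.bc e, Ch.cb e, Ch.ac e, Ch.ca e, map_add, map_sub, map_neg,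 map_zsmul]; try module))
    exact S.O hz f2 f1 e.ca (by (refine LinearMap.ext fun v => ?_; simp only [Module.End.mul_apply, Module.End.one_apply, RootLat.r_apply, RootLat.Q_sub, RootLat.Q_smul, RootLat.Q_subr, RootLat.Q_smulr, RootLat.Q_add, RootLat.Q_addr, RootLat.Q_neg, RootLat.Q_negr, Ch.aa e, Ch.bb e, Ch.cc e, Ch.ab e, Ch.ba e, Ch.bc e, Ch.cb e, Ch.ac e, Ch.ca e, map_add, map_sub, map_neg, map_zsmul]; try module))
  refine ⟨hb, hb', h.q, ?_, hnv⟩
  rcases S.ruleM _ f (q + g) hy hb hb' h.q with h3 | h3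
  · exact h3
  · exact absurd h3 hnv

/-! ### paths -/

theorem Pth.d_cons {S : Sys R} {n : ℕ} (h : S.Arr x a b) (h' : S.Pth x n b c) : S.Pth x (n + 1) a c := by
  obtain ⟨f, f0, fn, hf⟩ := h'
  refine ⟨fun j => Nat.casesOn j a f, rfl, fn, fun j hj => ?_⟩
  cases j with
  | zero => simpa [f0] using h
  | succ j => exact hf j (by omega)

theorem Pth.d_snoc {S : Sys R} {n : ℕ} (h : S.Pth x n a b) (h' : S.Arr x b c) : S.Pth x (n + 1) a c := by
  obtain ⟨f, f0, fn, hf⟩ := h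
  refine ⟨fun j => if j ≤ n then f j else c, by simp [f0], by simp, fun j hj => ?_⟩
  by_cases h1 : j + 1 ≤ n
  · have h2 : j ≤ n := by omega
    simp only [h1, h2, if_true]
    exact hf j (by omega)
  · have h2 : j = n := by omega
    subst h2
    simp only [le_refl, if_true, if_neg h1, fn]
    exact h'

theorem d_pth_sub {S : Sys R} {n : ℕ} {f : ℕ → L} (hf : ∀ j < n, S.Arr x (f j) (f (j + 1))) {i j : ℕ}
    (hij : i ≤ j) (hj : j ≤ n) : S.Pth x (j - i) (f i) (f j) :=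
  ⟨fun t => f (i + t), rfl, by simp only; congr 1; omega, fun t ht => hf (i + t) (by omega)⟩

/-! ### claim D -/

/-- the conclusion of claim D -/
def Dc (R : RootLat L) (b e : L) : Prop := R.P (b - e) ∧ (R.Q e b = 0 ∨ R.Q e b = 1)

theorem d_one (hx : S.A x) (hb : S.Sink x b) (hc : S.F x c) (hq : R.Q (b - c) (b - c) = 2) (hp : R.P (b - c))
    (h : S.Arr x c e) : Dc R b e := by
  have h0 := h.q
  rcases S.d_f1 x b c e hx hb hc hq hp h with h1 | ⟨h1, h2⟩
  · subst h1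
    refine ⟨R.P_cast hc.p (by abel), Or.inr ?_⟩
    have h3 := hc.q
    have h4 := hb.fb.q
    have h5 := R.Q_comm c b
    simp only [Q_sub, Q_subr] at hq h0 ⊢
    linarith
  · refine ⟨R.P_cast (R.P_add h2 hc.p) (by abel), Or.inl ?_⟩
    rw [R.Q_comm]
    simp only [Q_sub] at h1
    linarith

/-- the situation in the induction step -/
structure Ctx (x : Module.End ℤ L) (k : ℕ) (c q e : L) (f : ℕ → L) : Prop where
  xy : XYStmt S
  f2 : F2Stmt S
  hx : S.A x
  hb : S.Sink x (c + q)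
  hc : S.F x c
  hq : R.Q q q = 2
  hp : R.P q
  f0 : f 0 = c
  fn : f (k + 2) = e
  ha : ∀ j < k + 2, S.Arr x (f j) (f (j + 1))
  good : ∀ i j, i < j → j ≤ k + 2 → S.Good x (f i) (f j)
  hpos : ∀ j, 1 ≤ j → j < k + 2 → R.P (c + q - f j)
  hf0 : ∀ j, 1 ≤ j → j < k + 2 → R.Q (f j) (c + q) = 0
  hce : R.Q c e = 0
  hcf : ∀ j, 2 ≤ j → j < k + 2 → R.Q c (f j) = 0 ∨ R.Q c (f j) = 1
  IHm : ∀ x', S.A x' → S.μ x' < S.μ x → ∀ b' c' e', S.Sink x' b' → S.F x' c' →
    R.Q (b' - c') (b' - c') = 2 → R.P (b' - c') → S.Reach x' c' e' → Dc R b' e'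
  IHn : ∀ n', 0 < n' → n' < k + 2 → ∀ c' e', S.F x c' → R.Q (c + q - c') (c + q - c') = 2 →
    R.P (c + q - c') → S.Pth x n' c' e' → Dc R (c + q) e'

namespace Ctx

variable {S} {k : ℕ} {fs : ℕ → L} (C : S.Ctx x k c q e fs)

include C

theorem qcq : R.Q c q = -1 := by
  have := C.hb.fb.q
  simp only [Q_add, Q_addr, C.hc.q, C.hq, R.Q_comm q c] at this
  linarith

theorem ch : Ch2 R c q := Ch2.mk' C.hc.q C.hq C.qcq C.hc.p C.hp

theorem eF : S.F x e := by
  have := (C.ha (k + 1) (by omega)).fc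
  rwa [C.fn] at this

theorem fF {j : ℕ} (hj : j < k + 2) : S.F x (fs j) := (C.ha j hj).fb

theorem last : S.Arr x (fs (k + 1)) e := by
  have := C.ha (k + 1) (by omega)
  rwa [C.fn] at this

/-- case `(e,b) = 0` -/
theorem eps0 (he : R.Q e (c + q) = 0) : Dc R (c + q) e := by
  by_cases h1 : ∃ j, 1 ≤ j ∧ j < k + 2 ∧ R.Q (fs j) e = 1
  · obtain ⟨j, hj1, hj2, hj3⟩ := h1
    obtain ⟨-, h2⟩ := C.good j (k + 2) hj2 le_rfl
    rw [C.fn] at h2
    rcases h2 with h2 | ⟨h2, -⟩ | ⟨-, h2⟩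
    · omega
    · omega
    · exact ⟨R.P_cast (R.P_add (C.hpos j hj1 hj2) h2.p) (by abel), Or.inl he⟩
  by_cases h2 : ∃ j, 1 ≤ j ∧ j + 2 ≤ k + 2 ∧ R.Q (fs j) e = -1
  · obtain ⟨j, hj1, hj2, hj3⟩ := h2
    obtain ⟨-, h2⟩ := C.good j (k + 2) (by omega) le_rfl
    rw [C.fn] at h2
    rcases h2 with h2 | ⟨-, h2⟩ | ⟨h2, -⟩
    · omega
    · refine C.IHn (j + 1) (by omega) (by omega) c e C.hc (by simpa using C.hq) (by simpa using C.hp) ?_
      have := Pth.d_snoc (d_pth_sub C.ha (i := 0) (j := j) (by omega) (by omega)) h2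
      rw [C.f0] at this
      simpa using this
    · omega
  push Not at h1 h2
  have h0 : ∀ j, j + 2 ≤ k + 2 → R.Q (fs j) e = 0 := by
    intro j hj
    rcases Nat.eq_zero_or_pos j with rfl | hj0
    · rw [C.f0]; exact C.hce
    · obtain ⟨-, h3⟩ := C.good j (k + 2) (by omega) le_rfl
      rw [C.fn] at h3
      rcases h3 with h3 | ⟨h3, -⟩ | ⟨h3, -⟩
      · exact h3
      · exact absurd h3 (h2 j hj0 hj)
      · exact absurd h3 (h1 j hj0 (by omega))
  have hbe : R.Q (c + q) e = 0 := by rw [R.Q_comm]; exact he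
  have hy := S.act C.hx C.eF
  have hsink : S.Sink (x * R.r e) (c + q) := by
    refine C.f2 x e (c + q) C.hx C.hb C.eF (R.P_cast C.hb.fb.xp ?_)
    simp only [Module.End.mul_apply, r_apply, hbe, zero_smul, sub_zero]
  have hcy : S.F (x * R.r e) c := S.T1 C.hx C.eF C.hc (by rw [R.Q_comm]; exact C.hce)
  have hfy : ∀ j, j + 2 ≤ k + 2 → S.F (x * R.r e) (fs j) := fun j hj =>
    S.T1 C.hx C.eF (C.fF (by omega)) (by rw [R.Q_comm]; exact h0 j hj)
  have harr : ∀ j < k, S.Arr (x * R.r e) (fs j) (fs (j + 1)) := by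
    intro j hj
    refine S.UT C.hx (C.ha j (by omega)) C.eF (hfy j (by omega)) (hfy (j + 1) (by omega)) ?_
    rw [R.Q_comm e, R.Q_comm e, h0 j (by omega), h0 (j + 1) (by omega)]
    simpa using C.eF.p
  have hpth : S.Pth (x * R.r e) k c (fs k) := ⟨fs, C.f0, rfl, harr⟩
  have hl := S.UT7 C.hx (C.ha k (by omega)) C.eF (h0 k (by omega)) C.last.q C.last.v
  have := C.IHm _ hy (S.mu x e C.hx C.eF) (c + q) c (fs (k + 1) + e) hsink hcy (by simpa using C.hq)
    (by simpa using C.hp) ⟨k + 1, by omega, hpth.d_snoc hl⟩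
  exact ⟨R.P_cast (R.P_add this.1 (C.fF (j := k + 1) (by omega)).p) (by abel), Or.inl he⟩

theorem qb (j : ℕ) (h1 : 1 ≤ j) (h2 : j < k + 2) : R.Q (c + q) (fs j) = 0 := by
  rw [R.Q_comm]; exact C.hf0 j h1 h2

/-- transport along `b` when `q ∈ I` -/
theorem trI (hi : R.P (-(x q))) : S.A (x * R.r (c + q)) ∧ S.Pth (x * R.r (c + q)) (k + 1) c (fs (k + 1)) := by
  have hy := S.act C.hx C.hb.fb
  have hcy : S.F (x * R.r (c + q)) c := S.T3 C.hx C.ch C.hc hi C.hb.fb
  have hfy : ∀ j, 1 ≤ j → j < k + 2 → S.F (x * R.r (c + q)) (fs j) := fun j h1 h2 =>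
    S.T1 C.hx C.hb.fb (C.fF h2) (C.qb j h1 h2)
  refine ⟨hy, fs, C.f0, rfl, fun j hj => ?_⟩
  rcases Nat.eq_zero_or_pos j with rfl | hj0
  · rw [C.f0]
    refine S.UT C.hx (by have := C.ha 0 (by omega); rwa [C.f0] at this) C.hb.fb hcy (hfy 1 (by omega) (by omega)) ?_
    have e1 : R.Q (c + q) c = 1 := by (simp only [RootLat.Q_sub, RootLat.Q_smul, RootLat.Q_subr, RootLat.Q_smulr, RootLat.Q_add, RootLat.Q_addr, RootLat.Q_neg, RootLat.Q_negr, Ch2.aa C.ch, Ch2.bb C.ch, Ch2.ab C.ch, Ch2.ba C.ch]; try norm_num)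
    rw [C.qb 1 (by omega) (by omega), e1]
    simpa using C.hp
  · refine S.UT C.hx (C.ha j (by omega)) C.hb.fb (hfy j hj0 (by omega)) (hfy (j + 1) (by omega) (by omega)) ?_
    rw [C.qb j hj0 (by omega), C.qb (j + 1) (by omega) (by omega)]
    simpa using C.hb.fb.p

/-- the data of the transport along `q ∈ F` -/
structure TrF (S : Sys R) (x : Module.End ℤ L) (k : ℕ) (c q e : L) (fs : ℕ → L) : Prop where
  q1 : R.Q q (fs 1) = 1
  qj : ∀ j, 2 ≤ j → j < k + 2 → R.Q q (fs j) = 0 ∨ (R.Q q (fs j) = -1 ∧ S.F x (q + fs j))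
  fj : ∀ j, j < k + 2 → S.F (x * R.r q) (fs j)
  pth : S.Pth (x * R.r q) (k + 1) c (fs (k + 1))
  sink : S.Sink (x * R.r q) (c + q)

theorem trF (hcon : ¬ Dc R (c + q) e) (hqF : S.F x q) : TrF S x k c q e fs := by
  have hy := S.act C.hx hqF
  have h01 : S.Arr x c (fs 1) := by have := C.ha 0 (by omega); rwa [C.f0] at this
  have hcb : R.Q c (c + q) = 1 := by (simp only [RootLat.Q_sub, RootLat.Q_smul, RootLat.Q_subr, RootLat.Q_smulr, RootLat.Q_add, RootLat.Q_addr, RootLat.Q_neg, RootLat.Q_negr, Ch2.aa C.ch, Ch2.bb C.ch, Ch2.ab C.ch, Ch2.ba C.ch]; try norm_num)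
  have q1 : R.Q q (fs 1) = 1 := by
    have := C.qb 1 (by omega) (by omega)
    rw [Q_add] at this
    have h2 := h01.q
    linarith
  -- `q = f 1 + i`
  have hqf : R.P (q - fs 1) := by
    rcases S.d_f1 x (c + q) c (fs 1) C.hx C.hb C.hc (by simpa using C.hq) (by simpa using C.hp) h01 with h | h
    · exfalso
      rw [add_sub_cancel_left] at h
      rw [h, C.hq] at q1
      omega
    · simpa using h.2
  obtain ⟨i, hi⟩ : ∃ i, q = fs 1 + i := ⟨q - fs 1, by abel⟩
  have hipos : R.P i := R.P_cast hqf (by rw [hi]; abel)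
  have hf1i : R.Q (fs 1) i = -1 := by
    have h1 := q1
    rw [hi, Q_add, h01.fc.q, R.Q_comm] at h1
    linarith
  have hii : R.Q i i = 2 := by
    have h1 := C.hq
    rw [hi] at h1
    simp only [Q_add, Q_addr, h01.fc.q, hf1i, R.Q_comm i (fs 1)] at h1
    linarith
  have hci : R.Q c i = 0 := by
    have h1 := C.qcq
    rw [hi, Q_addr, h01.q] at h1
    linarith
  have hiI : R.P (-(x i)) := by
    rcases S.sgn (S.AV x C.hx) hii with hs | hs
    · exfalso
      have ech : Ch R c (fs 1) i := Ch.mk' C.hc.q h01.fc.q hii h01.q hf1i hci C.hc.p h01.fc.p hipos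
      have e2 : Ch2 R (c + fs 1) i := Ch2.mk' (by (simp only [RootLat.Q_sub, RootLat.Q_smul, RootLat.Q_subr, RootLat.Q_smulr, RootLat.Q_add, RootLat.Q_addr, RootLat.Q_neg, RootLat.Q_negr, Ch.aa ech, Ch.bb ech, Ch.cc ech, Ch.ab ech, Ch.ba ech, Ch.bc ech, Ch.cb ech, Ch.ac ech, Ch.ca ech]; try norm_num)) hii (by (simp only [RootLat.Q_sub, RootLat.Q_smul, RootLat.Q_subr, RootLat.Q_smulr, RootLat.Q_add, RootLat.Q_addr, RootLat.Q_neg, RootLat.Q_negr, Ch.aa ech, Ch.bb ech, Ch.cc ech, Ch.ab ech, Ch.ba ech, Ch.bc ech, Ch.cb ech, Ch.ac ech, Ch.ca ech]; try norm_num)) (R.P_add C.hc.p h01.fc.p) hipos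
      have hbF : S.F x (c + fs 1 + i) := by rw [add_assoc, ← hi]; exact C.hb.fb
      exact h01.nsum (S.low e2 (by rw [map_add]; exact R.P_add C.hc.xp h01.fc.xp) hs hbF)
    · exact hs
  have hcfj : ∀ j, 2 ≤ j → j < k + 2 → R.Q q (fs j) = 0 ∨ R.Q q (fs j) = -1 := by
    intro j h1 h2
    have h3 := C.qb j (by omega) h2
    rw [Q_add] at h3
    rcases C.hcf j h1 h2 with h4 | h4
    · left; linarith
    · right; linarith
  have qj : ∀ j, 2 ≤ j → j < k + 2 → R.Q q (fs j) = 0 ∨ (R.Q q (fs j) = -1 ∧ S.F x (q + fs j)) := by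
    intro j h1 h2
    rcases hcfj j h1 h2 with h3 | h3
    · exact Or.inl h3
    · refine Or.inr ⟨h3, ?_⟩
      rcases S.tri C.hx hqF (C.fF h2) h3 with h4 | h4 | h4
      · exact h4
      · exfalso
        apply hcon
        have hc' : c + q - q = c := by abel
        refine C.IHn (k + 2 - j + 1) (by omega) (by omega) q e hqF (by rw [hc']; exact C.hc.q)
          (by rw [hc']; exact C.hc.p) ?_
        have := Pth.d_cons h4 (d_pth_sub C.ha (i := j) (j := k + 2) (by omega) (by omega))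
        rwa [C.fn] at this
      · exfalso
        have h5 : S.Pth x (j + 1) c q := by
          have := Pth.d_snoc (d_pth_sub C.ha (i := 0) (j := j) (by omega) (by omega)) h4
          rw [C.f0] at this
          simpa using this
        obtain ⟨-, h6⟩ := C.xy x C.hx c q ⟨j + 1, by omega, h5⟩
        rcases h6 with h6 | ⟨-, h6⟩ | ⟨h6, -⟩
        · rw [C.qcq] at h6; omega
        · exact h6.nsum C.hb.fb
        · rw [C.qcq] at h6; omega
  have hcy : S.F (x * R.r q) c := S.T2 hqF C.hc C.ch.ba (S.Vcb C.ch C.hc.xp C.hb.fb)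
  have e3 : Ch2 R (fs 1) i := Ch2.mk' h01.fc.q hii hf1i h01.fc.p hipos
  have hf1y : S.F (x * R.r q) (fs 1) := by
    have := S.T3 C.hx e3 h01.fc hiI (by rw [← hi]; exact hqF)
    rwa [← hi] at this
  have hfy : ∀ j, j < k + 2 → S.F (x * R.r q) (fs j) := by
    intro j hj
    rcases Nat.lt_or_ge j 2 with hj2 | hj2
    · rcases Nat.lt_or_ge j 1 with hj1 | hj1
      · have : j = 0 := by omega
        rw [this, C.f0]; exact hcy
      · have : j = 1 := by omega
        rw [this]; exact hf1y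
    · rcases qj j hj2 hj with h3 | ⟨h3, h4⟩
      · exact S.T1 C.hx hqF (C.fF hj) h3
      · have e4 : Ch2 R q (fs j) := S.ch2 hqF (C.fF hj) h3
        exact S.T2 hqF (C.fF hj) h3 (S.Vbc e4 (C.fF hj).xp h4)
  refine ⟨q1, qj, hfy, ⟨fs, C.f0, rfl, fun j hj => ?_⟩, ?_⟩
  · refine S.UT C.hx (C.ha j (by omega)) hqF (hfy j (by omega)) (hfy (j + 1) (by omega)) ?_
    rcases Nat.lt_or_ge j 1 with hj1 | hj1
    · have : j = 0 := by omega
      subst this
      rw [C.f0, zero_add, C.ch.ba, q1]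
      exact R.P_cast hqf (by module)
    · have pj := (C.fF (j := j) (by omega)).p
      have pj1 := (C.fF (j := j + 1) (by omega)).p
      rcases Nat.lt_or_ge j 2 with hj2 | hj2
      · have : j = 1 := by omega
        subst this
        rcases hcfj 2 (by omega) (by omega) with h3 | h3
        · rw [q1]
          simp only [Nat.reduceAdd] at *
          rw [h3]
          exact R.P_cast hqf (by module)
        · rw [q1]
          simp only [Nat.reduceAdd] at *
          rw [h3]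
          exact R.P_cast (R.P_add hqF.p pj1) (by module)
      · rcases hcfj j hj2 (by omega) with h3 | h3 <;>
          rcases hcfj (j + 1) (by omega) (by omega) with h4 | h4 <;> rw [h3, h4]
        · exact R.P_cast hqF.p (by module)
        · exact R.P_cast (R.P_add hqF.p (R.P_add pj pj1)) (by module)
        · exact R.P_cast (R.P_add hqF.p pj) (by module)
        · exact R.P_cast (R.P_add (R.P_add hqF.p pj) (R.P_add pj pj1)) (by module)
  · refine C.f2 x q (c + q) C.hx C.hb hqF (R.P_cast C.hc.xp ?_)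
    (simp only [Module.End.mul_apply, Module.End.one_apply, RootLat.r_apply, RootLat.Q_sub, RootLat.Q_smul, RootLat.Q_subr, RootLat.Q_smulr, RootLat.Q_add, RootLat.Q_addr, RootLat.Q_neg, RootLat.Q_negr, Ch2.aa C.ch, Ch2.bb C.ch, Ch2.ab C.ch, Ch2.ba C.ch, map_add, map_sub, map_neg, map_zsmul]; try module)

/-- case `(e,b) = -1` -/
theorem epsn (he : R.Q e (c + q) = -1) : Dc R (c + q) e := by
  by_contra hcon
  have hbe : R.Q (c + q) e = -1 := by rw [R.Q_comm]; exact he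
  have hqe : R.Q q e = -1 := by
    have h1 := hbe
    rw [Q_add, C.hce] at h1
    linarith
  have v0 := C.hb.s e C.eF hbe
  rcases S.sgn (S.AV x C.hx) C.hq with hs | hs
  · have hqF : S.F x q := S.low' C.ch C.hc.xp hs C.hb.fb
    have T := C.trF hcon hqF
    have hy := S.act C.hx hqF
    rcases S.tri C.hx hqF C.eF hqe with h1 | h1 | h1
    · have e4 : Ch2 R q e := S.ch2 hqF C.eF hqe
      have hey : S.F (x * R.r q) e := S.T2 hqF C.eF hqe (S.Vbc e4 C.eF.xp h1)
      have pf := (C.fF (j := k + 1) (by omega)).p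
      have har : S.Arr (x * R.r q) (fs (k + 1)) e := by
        refine S.UT C.hx C.last hqF (T.fj (k + 1) (by omega)) hey ?_
        rw [hqe]
        have h3 : R.Q q (fs (k + 1)) = 1 ∨ R.Q q (fs (k + 1)) = 0 ∨ R.Q q (fs (k + 1)) = -1 := by
          rcases Nat.eq_zero_or_pos k with rfl | hk
          · exact Or.inl T.q1
          · rcases T.qj (k + 1) (by omega) (by omega) with h4 | ⟨h4, -⟩
            · exact Or.inr (Or.inl h4)
            · exact Or.inr (Or.inr h4)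
        rcases h3 with h3 | h3 | h3 <;> rw [h3]
        · exact R.P_cast (R.P_add hqF.p C.eF.p) (by module)
        · exact R.P_cast (R.P_add (R.P_add hqF.p pf) C.eF.p) (by module)
        · exact R.P_cast (R.P_add (R.P_add (R.P_add hqF.p pf) pf) C.eF.p) (by module)
      have := C.IHm _ hy (S.mu x q C.hx hqF) (c + q) c e T.sink
        (by have := T.fj 0 (by omega); rwa [C.f0] at this) (by simpa using C.hq)
        (by simpa using C.hp) ⟨k + 2, by omega, T.pth.d_snoc har⟩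
      exact hcon this
    · have hc' : c + q - q = c := by abel
      rcases S.d_f1 x (c + q) q e C.hx C.hb hqF (by rw [hc']; exact C.hc.q) (by rw [hc']; exact C.hc.p) h1
        with h2 | ⟨h2, -⟩
      · rw [hc'] at h2
        have h3 := C.hce
        rw [h2, C.hc.q] at h3
        omega
      · rw [hc', C.hce] at h2
        omega
    · have h5 : S.Pth x (k + 3) c q := by
        have := Pth.d_snoc (n := k + 2) (a := c) (b := e) ⟨fs, C.f0, C.fn, C.ha⟩ h1
        exact this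
      obtain ⟨-, h6⟩ := C.xy x C.hx c q ⟨k + 3, by omega, h5⟩
      rcases h6 with h6 | ⟨-, h6⟩ | ⟨h6, -⟩
      · rw [C.qcq] at h6; omega
      · exact h6.nsum C.hb.fb
      · rw [C.qcq] at h6; omega
  · obtain ⟨hy, hpth⟩ := C.trI hs
    have hl := S.UT7 C.hx C.last C.hb.fb (C.hf0 (k + 1) (by omega) (by omega)) he v0
    obtain ⟨-, h6⟩ := C.xy _ hy c (e + (c + q)) ⟨k + 2, by omega, hpth.d_snoc hl⟩
    have h7 : R.Q c (e + (c + q)) = 1 := by
      rw [Q_addr, C.hce, Q_addr, C.hc.q, C.qcq]; norm_num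
    rcases h6 with h6 | ⟨h6, -⟩ | ⟨-, h6⟩
    · omega
    · omega
    · refine R.P_neg (R.P_add C.eF.p C.hp) (R.P_cast h6.p (by abel))

/-- case `(e,b) = 1` -/
theorem eps1 (he : R.Q e (c + q) = 1) : Dc R (c + q) e := by
  by_contra hcon
  have hbe : R.Q (c + q) e = 1 := by rw [R.Q_comm]; exact he
  have hbq := C.hb.fb.q
  have hroot : R.Q (c + q - e) (c + q - e) = 2 := by
    rw [Q_sub, Q_subr, Q_subr, he, hbe, hbq, C.eF.q]; norm_num
  have hneg : R.P (-(c + q - e)) := by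
    rcases R.P_root _ hroot with h | h
    · exact absurd ⟨h, Or.inr he⟩ hcon
    · exact h
  have hlast := C.last
  have heF := C.eF
  have hce := C.hce
  obtain ⟨g, hg⟩ : ∃ g, e = c + q + g := ⟨e - (c + q), by abel⟩
  have pg : R.P g := R.P_cast hneg (by rw [hg]; abel)
  have hbg : R.Q (c + q) g = -1 := by
    have h1 := hbe
    rw [hg, Q_addr, hbq] at h1
    linarith
  have hgg : R.Q g g = 2 := by
    have h1 : c + q - e = -g := by rw [hg]; abel
    rw [h1, Q_neg, Q_negr, neg_neg] at hroot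
    exact hroot
  have hcg : R.Q c g = -1 := by
    have h1 := hce
    rw [hg, Q_addr, Q_addr, C.hc.q, C.qcq] at h1
    linarith
  have hqg : R.Q q g = 0 := by
    rw [Q_add, hcg] at hbg
    linarith
  have ech : Ch R q c g := Ch.mk' C.hq C.hc.q hgg C.ch.ba hcg hqg C.hp C.hc.p pg
  rcases S.sgn (S.AV x C.hx) C.hq with hs | hs
  · have hqF : S.F x q := S.low' C.ch C.hc.xp hs C.hb.fb
    have T := C.trF hcon hqF
    have hy := S.act C.hx hqF
    have ee : e = q + (c + g) := by rw [hg]; abel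
    have hh : R.Q (c + g) (c + g) = 2 := by (simp only [RootLat.Q_sub, RootLat.Q_smul, RootLat.Q_subr, RootLat.Q_smulr, RootLat.Q_add, RootLat.Q_addr, RootLat.Q_neg, RootLat.Q_negr, Ch.aa ech, Ch.bb ech, Ch.cc ech, Ch.ab ech, Ch.ba ech, Ch.bc ech, Ch.cb ech, Ch.ac ech, Ch.ca ech]; try norm_num)
    have ph : R.P (c + g) := R.P_add C.hc.p pg
    have hqh : R.Q q (c + g) = -1 := by (simp only [RootLat.Q_sub, RootLat.Q_smul, RootLat.Q_subr, RootLat.Q_smulr, RootLat.Q_add, RootLat.Q_addr, RootLat.Q_neg, RootLat.Q_negr, Ch.aa ech, Ch.bb ech, Ch.cc ech, Ch.ab ech, Ch.ba ech, Ch.bc ech, Ch.cb ech, Ch.ac ech, Ch.ca ech]; try norm_num)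
    have hfe : R.Q (fs (k + 1)) e = -1 := hlast.q
    have hl' : S.Arr x (fs (k + 1)) (q + (c + g)) := by rw [← ee]; exact hlast
    have hFe : S.F x (q + (c + g)) := hl'.fc
    have fk := C.fF (j := k + 1) (by omega)
    rcases Nat.eq_zero_or_pos k with hk | hk
    · subst hk
      have h1 : R.Q (fs (0 + 1)) (c + g) = -2 := by
        have h2 := hl'.q
        have h3 := T.q1
        rw [Q_addr, R.Q_comm (fs (0 + 1)) q] at h2
        simp only [zero_add] at h2 ⊢
        linarith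
      have h2 := R.eq_neg_of fk.q hh h1
      exact R.P_neg ph (h2 ▸ fk.p)
    · rcases T.qj (k + 1) (by omega) (by omega) with h1 | ⟨h1, h2⟩
      · have hT := S.T89 C.hx hl' hqF (by rw [R.Q_comm]; exact h1) hh ph
        obtain ⟨-, h6⟩ := C.xy _ hy c (c + g) ⟨k + 2, by omega, T.pth.d_snoc hT⟩
        have h7 : R.Q c (c + g) = 1 := by (simp only [RootLat.Q_sub, RootLat.Q_smul, RootLat.Q_subr, RootLat.Q_smulr, RootLat.Q_add, RootLat.Q_addr, RootLat.Q_neg, RootLat.Q_negr, Ch.aa ech, Ch.bb ech, Ch.cc ech, Ch.ab ech, Ch.ba ech, Ch.bc ech, Ch.cb ech, Ch.ac ech, Ch.ca ech]; try norm_num)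
        rcases h6 with h6 | ⟨h6, -⟩ | ⟨-, h6⟩
        · omega
        · omega
        · exact R.P_neg pg (R.P_cast h6.p (by abel))
      · have hfh : R.Q (fs (k + 1)) (c + g) = 0 := by
          have h3 := hl'.q
          rw [Q_addr, R.Q_comm (fs (k + 1)) q, h1] at h3
          linarith
        have e5 : Ch2 R q (fs (k + 1)) := S.ch2 hqF fk h1
        have hv := S.Vbc e5 fk.xp h2
        rcases S.sgn (S.AV x C.hx) hh with hs2 | hs2
        · have e6 : Ch2 R q (c + g) := Ch2.mk' hqF.q hh hqh hqF.p ph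
          have hhF : S.F x (c + g) := S.low' e6 hqF.xp hs2 hFe
          have har := S.d_HH C.hx hl' hqF hhF e5.ba hv hfh
          rw [← ee] at har
          have := C.IHm _ hy (S.mu x q C.hx hqF) (c + q) c e T.sink
            (by have := T.fj 0 (by omega); rwa [C.f0] at this) (by simpa using C.hq)
            (by simpa using C.hp) ⟨k + 2, by omega, T.pth.d_snoc har⟩
          exact hcon this
        · exact S.H2 C.hx hl' hqF ⟨hh, ph, hs2⟩ (by rw [R.Q_comm]; exact hfh) hv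
  · obtain ⟨hy, hpth⟩ := C.trI hs
    have hl' : S.Arr x (fs (k + 1)) (c + q + g) := by rw [← hg]; exact hlast
    have hT := S.T89 C.hx hl' C.hb.fb (C.hf0 (k + 1) (by omega) (by omega)) hgg pg
    obtain ⟨-, h6⟩ := C.xy _ hy c g ⟨k + 2, by omega, hpth.d_snoc hT⟩
    have hE := S.E56 C.hx C.hc ⟨C.hq, C.hp, hs⟩ C.hb.fb hgg pg hl'.fc (by rw [← hg]; exact hce)
    rcases h6 with h6 | ⟨-, h6⟩ | ⟨h6, -⟩
    · omega
    · exact h6.nv hE
    · omega

end Ctx

theorem d_aux (hXY : XYStmt S) (hF2 : F2Stmt S) : ∀ m : ℕ, ∀ x, S.A x → S.μ x = m → ∀ n, 0 < n → ∀ b c e,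
    S.Sink x b → S.F x c → R.Q (b - c) (b - c) = 2 → R.P (b - c) → S.Pth x n c e → Dc R b e := by
  intro m
  induction m using Nat.strong_induction_on with
  | _ m IHm =>
  intro x hx hm n
  induction n using Nat.strong_induction_on with
  | _ n IHn =>
  intro hn b c e hb hc hq hp hpth
  have hpth' := hpth
  obtain ⟨f, f0, fn, ha⟩ := hpth
  obtain ⟨q, rfl⟩ : ∃ q, b = c + q := ⟨b - c, by abel⟩
  have hq' : R.Q q q = 2 := by simpa using hq
  have hp' : R.P q := by simpa using hp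
  rcases Nat.lt_or_ge n 2 with hn2 | hn2
  · have : n = 1 := by omega
    subst this
    have h1 := ha 0 (by omega)
    rw [f0, zero_add, fn] at h1
    exact S.d_one hx hb hc hq hp h1
  obtain ⟨k, rfl⟩ : ∃ k, n = k + 2 := ⟨n - 2, by omega⟩
  have hgood : ∀ i j, i < j → j ≤ k + 2 → S.Good x (f i) (f j) := fun i j hij hj =>
    hXY x hx _ _ ⟨j - i, by omega, d_pth_sub ha hij.le hj⟩
  have hf : ∀ j, 1 ≤ j → j < k + 2 → Dc R (c + q) (f j) := by
    intro j h1 h2
    refine IHn j h2 (by omega) (c + q) c (f j) hb hc hq hp ?_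
    have := d_pth_sub ha (i := 0) (j := j) (by omega) (by omega)
    rw [f0] at this
    simpa using this
  by_cases h1 : ∃ j, 1 ≤ j ∧ j < k + 2 ∧ R.Q (f j) (c + q) = 1
  · obtain ⟨j, h1, h2, h3⟩ := h1
    refine IHn (k + 2 - j) (by omega) (by omega) (c + q) (f j) e hb (ha j h2).fb ?_ (hf j h1 h2).1 ?_
    · rw [Q_sub, Q_subr, Q_subr, h3, R.Q_comm _ (f j), h3, hb.fb.q, (ha j h2).fb.q]; norm_num
    · have := d_pth_sub ha (i := j) (j := k + 2) (by omega) le_rfl
      rwa [fn] at this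
  push Not at h1
  have hf0 : ∀ j, 1 ≤ j → j < k + 2 → R.Q (f j) (c + q) = 0 := by
    intro j h2 h3
    rcases (hf j h2 h3).2 with h4 | h4
    · exact h4
    · exact absurd h4 (h1 j h2 h3)
  have hcq : R.Q c q = -1 := by
    have := hb.fb.q
    simp only [Q_add, Q_addr, hc.q, hq', R.Q_comm q c] at this
    linarith
  have hcb : R.Q c (c + q) = 1 := by rw [Q_addr, hc.q, hcq]; norm_num
  have hG := hgood 0 (k + 2) (by omega) le_rfl
  rw [f0, fn] at hG
  have heF : S.F x e := by have := (ha (k + 1) (by omega)).fc; rwa [fn] at this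
  rcases hG with ⟨hne, hG | ⟨hG, hG'⟩ | ⟨hG, hG'⟩⟩
  · by_cases h2 : ∃ j, 2 ≤ j ∧ j < k + 2 ∧ R.Q c (f j) = -1
    · obtain ⟨j, h2, h3, h4⟩ := h2
      have h5 := hgood 0 j (by omega) (by omega)
      rw [f0] at h5
      rcases h5 with ⟨-, h5 | ⟨-, h5⟩ | ⟨h5, -⟩⟩
      · omega
      · refine IHn (k + 2 - j + 1) (by omega) (by omega) (c + q) c e hb hc hq hp ?_
        have := Pth.d_cons h5 (d_pth_sub ha (i := j) (j := k + 2) (by omega) le_rfl)
        rwa [fn] at this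
      · omega
    push Not at h2
    have C : S.Ctx x k c q e f := by
      refine ⟨hXY, hF2, hx, hb, hc, hq', hp', f0, fn, ha, hgood, fun j h3 h4 => (hf j h3 h4).1, hf0, hG, ?_, ?_, ?_⟩
      · intro j h3 h4
        have h5 := hgood 0 j (by omega) (by omega)
        rw [f0] at h5
        rcases h5 with ⟨-, h5 | ⟨h5, -⟩ | ⟨h5, -⟩⟩
        · exact Or.inl h5
        · exact absurd h5 (h2 j h3 h4)
        · exact Or.inr h5
      · intro x' hx' hlt b' c' e' hb' hc' hq2 hp2 hr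
        obtain ⟨n', hn', hp3⟩ := hr
        exact IHm (S.μ x') (by omega) x' hx' rfl n' hn' b' c' e' hb' hc' hq2 hp2 hp3
      · intro n' h3 h4 c' e' hc' hq2 hp2 hp3
        exact IHn n' h4 h3 (c + q) c' e' hb hc' hq2 hp2 hp3
    rcases R.Q_cases heF.q hb.fb.q with h3 | h3 | h3 | h3 | h3
    · exfalso
      have := R.eq_neg_of heF.q hb.fb.q h3
      exact R.P_neg hb.fb.p (this ▸ heF.p)
    · exact C.epsn h3
    · exact C.eps0 h3
    · exact C.eps1 h3
    · exfalso
      have := R.eq_of_two heF.q hb.fb.q h3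
      rw [this, hcb] at hG
      omega
  · exact S.d_one hx hb hc hq hp hG'
  · have hqe : R.Q e q = -2 ∨ R.Q e q = -1 ∨ R.Q e q = 0 ∨ R.Q e q = 1 ∨ R.Q e q = 2 := R.Q_cases heF.q hq'
    have hec : R.Q e c = 1 := by rw [R.Q_comm]; exact hG
    have hpos : R.P (c + q - e) := R.P_cast (R.P_add hp' hG'.p) (by abel)
    have hsum : R.Q e (c + q) = 1 + R.Q e q := by rw [Q_addr, hec]
    rcases hqe with h3 | h3 | h3 | h3 | h3
    · exfalso
      have := R.eq_neg_of heF.q hq' h3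
      exact R.P_neg hp' (this ▸ heF.p)
    · exact ⟨hpos, Or.inl (by rw [hsum, h3]; norm_num)⟩
    · exact ⟨hpos, Or.inr (by rw [hsum, h3]; norm_num)⟩
    · exfalso
      have := R.eq_of_two heF.q hb.fb.q (by rw [hsum, h3]; norm_num)
      rw [this, sub_self] at hpos
      exact R.P_zero hpos
    · exfalso
      have h4 := R.Q_cases heF.q hb.fb.q
      rw [hsum, h3] at h4
      omega

theorem d_stmt (hXY : XYStmt S) (hF2 : F2Stmt S) : DStmt S := by
  intro x hx b c e hb hc hq hp hr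
  obtain ⟨n, hn, hp2⟩ := hr
  exact S.d_aux hXY hF2 (S.μ x) x hx rfl n hn b c e hb hc hq hp hp2

end Sys

end Pool.Agent.H11.ZDE
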